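import Mathlib
import Pool.Agent.Run7.h80.Bd.Final

/-!
# Boyd's conjecture for decomposable Laurent polynomials in any number of variables

`L K` is the set of the Mahler measures of the nonzero integer polynomials `F` (in any number of
variables) having a coprime companion `G` with `∫ log max(|F|, |G|) ≤ K`; a set `T` of reals has
bounded companions if for every `B` some `L K` contains all elements of `T` below `B`. (The sets `L K`
and the consequences of bounded companions are from the starting files.)

Let `h = P / z ^ s` be a Laurent polynomial with integer coefficients in any number of variables and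
let `g` be an irreducible integer polynomial in one variable. The set of all measures `M(g(h))` has
bounded companions, if either `deg g ≥ 3` and `h` is not of the form `± u + δ / u + c` with a Laurent
monomial `u` and `δ = 0, 1, -1`, or `2 ≤ deg g ≤ D` and `h` is not constant. So the multiplicative
monoid generated by all these measures, and by any other class with bounded companions, has a closure
that consists of Mahler measures, a gap above `1`, and finite Cantor-Bendixson rank below every bound.

The excluded shapes are necessary to get more than Lehmer's conjecture: `g(z ^ m + c)` and `g(z + 1 / z)`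
give all polynomials and all reciprocal polynomials in one variable.

Method. 1. If `deg g ≥ 3` and `h` is not excluded then `M(g(h)) ≥ exp(deg g / 400000)`
(MP_7ab245_nt, DecomposablePolynomials, for one variable; the limit formula of Boyd and Lawton for
several variables). So `deg g` is bounded in terms of `M(g(h))`.
2. `M(h - x) ≤ M(h - s) M(h - t)` on the segment from `s` to `t`. Two zeros `s, t` of `g` are not too
close because the value of `g` at the center of gravity of its zeros is not zero. The average of
`log` of `1 / |h - x|` over this segment is bounded, so `∫ log max(1, |h - x|)` is bounded for some `x` on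
the segment. The same argument shows that all zeros of `g` are at a bounded distance from `x`.
3. Therefore `∫ log max(1, |g(h)|)` is bounded in terms of `M(g(h))`: the companion is `G = 1`.
-/

set_option autoImplicit false

namespace Pool.Agent.Results.MP_6d22ea_nt.DecomposableLaurent

noncomputable section

/-- Value of an integer polynomial in `k` variables at the torus point
`(exp (2 π i t_1), …, exp (2 π i t_k))`. -/
def value {k : ℕ} (F : MvPolynomial (Fin k) ℤ) (t : Fin k → ℝ) : ℂ :=
  MvPolynomial.eval (fun j : Fin k => Complex.exp (2 * (Real.pi : ℂ) * Complex.I * ((t j : ℝ) : ℂ)))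
    (MvPolynomial.map (Int.castRingHom ℂ) F)

/-- The Mahler measure of an integer polynomial in `k` variables. -/
def mahler {k : ℕ} (F : MvPolynomial (Fin k) ℤ) : ℝ :=
  Real.exp (∫ t in Set.Icc (0 : Fin k → ℝ) 1, Real.log ‖value F t‖)

/-- The integral of `log max(|F|, |G|)` over the torus. -/
def pairHeight {k : ℕ} (F G : MvPolynomial (Fin k) ℤ) : ℝ :=
  ∫ t in Set.Icc (0 : Fin k → ℝ) 1, Real.log (max ‖value F t‖ ‖value G t‖)

/-- The set of the Mahler measures of the nonzero integer polynomials in any number of variables. -/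
def allMeasures : Set ℝ :=
  {x : ℝ | ∃ k : ℕ, 1 ≤ k ∧ ∃ F : MvPolynomial (Fin k) ℤ, F ≠ 0 ∧ x = mahler F}

/-- The Mahler measures of the nonzero polynomials `F` having a coprime companion `G ≠ 0` with
`∫ log max(|F|, |G|) ≤ K`. -/
def L (K : ℝ) : Set ℝ :=
  {x : ℝ | ∃ k : ℕ, 1 ≤ k ∧ ∃ F G : MvPolynomial (Fin k) ℤ, F ≠ 0 ∧ G ≠ 0 ∧ IsRelPrime F G ∧
    pairHeight F G ≤ K ∧ x = mahler F}

/-- For every `B` some `L K` contains all elements of `T` below `B`. -/
def BoundedCompanions (T : Set ℝ) : Prop := ∀ B : ℝ, ∃ K : ℝ, T ∩ Set.Iio B ⊆ L K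

/-- The polynomial `z ^ (d s) * g(P / z ^ s)` in `k` variables, where `d` is the degree of `g`. -/
def composition {k : ℕ} (g : Polynomial ℤ) (P : MvPolynomial (Fin k) ℤ) (s : Fin k →₀ ℕ) :
    MvPolynomial (Fin k) ℤ :=
  ∑ j ∈ Finset.range (g.natDegree + 1), MvPolynomial.C (g.coeff j) * P ^ j *
    MvPolynomial.monomial s 1 ^ (g.natDegree - j)

/-- `P / z ^ s = ε z ^ (a - s) + δ z ^ (b - s) + c` with `ε = ± 1` and either `δ = 0`, or `δ = ± 1` and
`z ^ (b - s)` is the inverse of `z ^ (a - s)`. -/
def Excluded {k : ℕ} (P : MvPolynomial (Fin k) ℤ) (s : Fin k →₀ ℕ) : Prop :=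
  ∃ (ε δ c : ℤ) (a b : Fin k →₀ ℕ), |ε| = 1 ∧ (δ = 0 ∨ |δ| = 1 ∧ a + b = s + s) ∧
    P = MvPolynomial.monomial a ε + MvPolynomial.monomial b δ + MvPolynomial.monomial s c

/-- The Mahler measures of the compositions `g(h)`, `h = P / z ^ s`, where `g` is irreducible, and
either `g` has a degree of at least three and `h` is not excluded, or `g` has a degree between two and
`D` and `h` is not constant. -/
def compositions (D : ℕ) : Set ℝ :=
  {x : ℝ | ∃ (k : ℕ) (g : Polynomial ℤ) (P : MvPolynomial (Fin k) ℤ) (s : Fin k →₀ ℕ),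
    Irreducible g ∧ ((3 ≤ g.natDegree ∧ ¬ Excluded P s) ∨
      (2 ≤ g.natDegree ∧ g.natDegree ≤ D ∧ ∀ c : ℤ, P ≠ MvPolynomial.monomial s c)) ∧
    x = mahler (composition g P s)}

lemma composition_eq {k : ℕ} (g : Polynomial ℤ) (P : MvPolynomial (Fin k) ℤ) (s : Fin k →₀ ℕ) :
    composition g P s = Pool.Agent.Run7.h80.Comp.pcomp g P (MvPolynomial.monomial s 1) := by
  rw [composition, Pool.Agent.Run7.h80.Comp.pcomp]
  refine Finset.sum_congr rfl fun j _ => ?_
  rw [eq_intCast (MvPolynomial.C : ℤ →+* MvPolynomial (Fin k) ℤ)]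

lemma compositions_eq (D : ℕ) : compositions D = Pool.Agent.Run7.h80.Bd.TC D := by
  unfold compositions Pool.Agent.Run7.h80.Bd.TC
  simp only [composition_eq]
  rfl

theorem result (D : ℕ) (T : Set ℝ) (hT : BoundedCompanions T) :
    BoundedCompanions (Submonoid.closure (T ∪ compositions D) : Submonoid ℝ) ∧
    closure ((Submonoid.closure (T ∪ compositions D) : Submonoid ℝ) : Set ℝ) ⊆ allMeasures ∧
    (∃ δ : ℝ, 1 < δ ∧ ∀ x ∈ (Submonoid.closure (T ∪ compositions D) : Submonoid ℝ),
      x = 1 ∨ δ ≤ x) ∧
    ∀ B : ℝ, ∃ m : ℕ, ∀ x ∈ derivedSet^[m]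
      ((Submonoid.closure (T ∪ compositions D) : Submonoid ℝ) : Set ℝ), B ≤ x := by
  rw [compositions_eq]
  have h1 : Pool.Agent.TH845.KN.BC
      ((Submonoid.closure (T ∪ Pool.Agent.Run7.h80.Bd.TC D) : Submonoid ℝ) : Set ℝ) :=
    Pool.Agent.TH845.KN.BC_monoid
      (Pool.Agent.TH845.KN.BC.union hT (Pool.Agent.Run7.h80.Bd.BC_TC D))
  obtain ⟨h2, h3⟩ := Pool.Agent.W242.IM.closure_of_LL _ h1
  exact ⟨h1, h2, Pool.Agent.TH845.KN.gap_BC h1, h3⟩

end

end Pool.Agent.Results.MP_6d22ea_nt.DecomposableLaurent
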