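import Mathlib
import Pool.Agent.Run7.h22.FinN
import Pool.Agent.Run7.h22.FinSet

/-!
# The set of the Mahler measures of the polynomials with few complex conjugations is closed
-/

set_option autoImplicit false

open Polynomial Filter Topology

namespace Pool.Agent.Results.MP_6d22ea_nt.FewComplexConjugations

/-- the Mahler measure of an integer polynomial -/
noncomputable def M (f : ℤ[X]) : ℝ := (f.map (Int.castRingHom ℂ)).mahlerMeasure

/-- the splitting field over `ℚ` of an integer polynomial -/
abbrev L (f : ℤ[X]) : Type := (f.map (Int.castRingHom ℚ)).SplittingField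

/-- the complex conjugations of `f`: the elements `σ` of the Galois group of `f` over `ℚ` such that
`φ ∘ σ = conj ∘ φ` for some embedding `φ` of the splitting field in `ℂ` -/
def complexConjugations (f : ℤ[X]) : Set (L f ≃ₐ[ℚ] L f) :=
  {σ | ∃ φ : L f →+* ℂ, ∀ x, φ (σ x) = starRingEnd ℂ (φ x)}

/-- the number of the complex conjugations of `f` -/
noncomputable def k (f : ℤ[X]) : ℕ := (complexConjugations f).ncard

/-- the number of the complex conjugations, with the weight `exp (9 √(log 2k))` -/
noncomputable def w (f : ℤ[X]) : ℝ := k f * Real.exp (9 * Real.sqrt (Real.log (2 * k f)))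

/-- all the irreducible factors `g` of `f` of positive degree satisfy `w g ≤ ψ (deg g)` -/
def Few (ψ : ℕ → ℝ) (f : ℤ[X]) : Prop :=
  ∀ g : ℤ[X], Irreducible g → g ∣ f → 0 < g.natDegree → w g ≤ ψ g.natDegree

/-- the set of the Mahler measures of these polynomials -/
def S (ψ : ℕ → ℝ) : Set ℝ := {x | ∃ f : ℤ[X], f ≠ 0 ∧ Few ψ f ∧ M f = x}

lemma measure_eq_of_roots (g : ℤ[X]) (h : ∀ z : ℂ, (g.map (Int.castRingHom ℂ)).IsRoot z → z ≠ 0 →
    ‖z‖ = 1) : M g = |(g.leadingCoeff : ℝ)| := by
  rw [M, mahlerMeasure_eq_leadingCoeff_mul_prod_roots,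
    Polynomial.leadingCoeff_map_of_injective (RingHom.injective_int _), eq_intCast,
    Complex.norm_intCast]
  have h1 : ((g.map (Int.castRingHom ℂ)).roots.map (fun a => max 1 ‖a‖)).prod = 1 := by
    apply Multiset.prod_eq_one
    intro x hx
    obtain ⟨z, hz, rfl⟩ := Multiset.mem_map.mp hx
    by_cases hz0 : z = 0
    · rw [hz0, norm_zero, max_eq_left zero_le_one]
    · rw [h z (isRoot_of_mem_roots hz) hz0, max_self]
  rw [h1, mul_one]

/-- **The Mahler measures of polynomials with few complex conjugations.** Let `ψ n = o(n)`. The set of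
the Mahler measures of the nonzero integer polynomials all of whose irreducible factors `g` of positive
degree have `k` complex conjugations with `k exp (9 √(log 2k)) ≤ ψ (deg g)` has only finitely many
elements below any bound; it is closed in `ℝ`. -/
theorem result (ψ : ℕ → ℝ) (hψ : Tendsto (fun n : ℕ => ψ n / n) atTop (𝓝 0)) :
    (∀ T : ℝ, {x : ℝ | x ≤ T ∧ x ∈ S ψ}.Finite) ∧ IsClosed (S ψ) := by
  have hfin : ∀ T : ℝ, {x : ℝ | x ≤ T ∧ x ∈ S ψ}.Finite := by
    intro T
    apply Pool.Agent.Run7.h22.finite_of_irreducible (P := Few ψ)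
    · intro f g hf hgf q hq hqg
      exact hf q hq (hqg.trans hgf)
    obtain ⟨A, hA, h⟩ := Pool.Agent.Run7.h22.field_gen
    set T' : ℝ := max T 1 with hT'
    have hT1 : 1 ≤ T' := le_max_right _ _
    have hl : 0 ≤ Real.log T' := Real.log_nonneg hT1
    obtain ⟨N, hN⟩ : ∃ N : ℕ, ∀ n : ℕ, N ≤ n → ψ n / n < 1 / (A * (Real.log T' + 1)) := by
      have h1 := hψ.eventually_lt_const (show (0:ℝ) < 1 / (A * (Real.log T' + 1)) by positivity)
      exact eventually_atTop.mp h1
    -- the polynomials of degree at most `N`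
    have hf1 : (M '' {p : ℤ[X] | p.natDegree ≤ N ∧
        (p.map (Int.castRingHom ℂ)).mahlerMeasure ≤ (T'.toNNReal : ℝ)}).Finite :=
      (finite_mahlerMeasure_le N T'.toNNReal).image M
    have hf2 : ((fun n : ℕ => (n : ℝ)) '' (Set.Iic ⌊T'⌋₊)).Finite := (Set.finite_Iic _).image _
    apply (hf1.union hf2).subset
    rintro x ⟨hxT, g, hg, hgP, rfl⟩
    have hxT' : M g ≤ T' := hxT.trans (le_max_left _ _)
    have hM1 : 1 ≤ M g := Pool.Agent.H388SL.one_le_MM hg.ne_zero
    by_cases hroot : ∀ z : ℂ, (g.map (Int.castRingHom ℂ)).IsRoot z → z ≠ 0 → ‖z‖ = 1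
    · right
      have h1 := measure_eq_of_roots g hroot
      refine ⟨g.leadingCoeff.natAbs, ?_, ?_⟩
      · rw [Set.mem_Iic]
        apply Nat.le_floor
        have h2 : ((g.leadingCoeff.natAbs : ℕ) : ℝ) = |(g.leadingCoeff : ℝ)| := by
          rw [Nat.cast_natAbs, Int.cast_abs]
        rw [h2, ← h1]
        exact hxT'
      · show ((g.leadingCoeff.natAbs : ℕ) : ℝ) = M g
        rw [h1, Nat.cast_natAbs, Int.cast_abs]
    · left
      push Not at hroot
      obtain ⟨z, hz, hz0, hz1⟩ := hroot
      refine ⟨g, ⟨?_, ?_⟩, rfl⟩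
      · by_contra hdeg
        push Not at hdeg
        have hd : 0 < g.natDegree := by omega
        have h1 := Pool.Agent.Run7.h22.poly_gen hA (fun K _ _ _ α => h K α) g hg hd ⟨z, hz, hz0, hz1⟩
        have h2 : w g ≤ ψ g.natDegree := hgP g hg dvd_rfl hd
        have h3 := hN g.natDegree hdeg.le
        have hn : (0:ℝ) < g.natDegree := by exact_mod_cast hd
        rw [div_lt_iff₀ hn, one_div_mul_eq_div, lt_div_iff₀ (by positivity)] at h3
        have h4 : (g.natDegree : ℝ) ≤ A * w g * Real.log (M g) := h1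
        have h5 : Real.log (M g) ≤ Real.log T' := Real.log_le_log (by linarith) hxT'
        have h6 : 0 ≤ Real.log (M g) := Real.log_nonneg hM1
        have hw : 0 ≤ w g := by unfold w; positivity
        have h7 : A * w g * Real.log (M g) ≤ A * ψ g.natDegree * (Real.log T' + 1) := by
          apply mul_le_mul _ (by linarith) h6
          · exact mul_nonneg hA.le (hw.trans h2)
          · exact mul_le_mul_of_nonneg_left h2 hA.le
        have h8 : A * ψ g.natDegree * (Real.log T' + 1) = ψ g.natDegree * (A * (Real.log T' + 1)) := by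
          ring
        linarith
      · rw [Real.coe_toNNReal _ (by linarith)]
        exact hxT'
  exact ⟨hfin, Pool.Agent.Run7.h22.isClosed_of_finite_below hfin⟩

end Pool.Agent.Results.MP_6d22ea_nt.FewComplexConjugations
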