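import Mathlib
import Pool.Agent.Run7.h22.Rel12

/-!
# The Mahler measures of the polynomials of small degree over fields with few Frobenius automorphisms

Boyd's conjecture says that the set of all Mahler measures is closed. Here it is proved for two sets of
Mahler measures of integer polynomials in one variable all of whose irreducible factors `g` with
`M(g) > 1` satisfy the following condition: for some prime number `p`, some `a ≥ 1`, some Galois number
field `K` which contains a zero of `g` and in which `p` is unramified and some subfield `E` of `K` which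
is normal over `ℚ`, the zeros of `g` have degree at most `D` over the field generated by `E` and the
roots of unity of `K` of order prime to `p`, and

  `p ^ (a + 2) D ^ 3 k exp (17 √(log (2 k) log (2 D))) ≤ ψ (deg g)`

where `k` is the number of the automorphisms of `E` that are `a`-th powers of Frobenius automorphisms
above `p`, and `ψ` is any function with `ψ (n) = o (n)`. For example `E` can be the field generated by
the numbers `α + 1 / α`, `α` a zero of `g`; then `D ≤ 2`.

1. The set of the Mahler measures of these polynomials with leading and constant coefficients `± 1`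
   has only finitely many elements below every bound; so it is closed.
2. The set of the Mahler measures less than `2` of all these polynomials has only finitely many
   elements below every `T < 2`; so it contains all its limits that are less than `2`.
-/

set_option autoImplicit false

open Polynomial NumberField Filter Topology

namespace Pool.Agent.Results.MP_6d22ea_nt.FewFrobeniusMeasures

/-- the Mahler measure of an integer polynomial -/
noncomputable def M (f : ℤ[X]) : ℝ := (f.map (Int.castRingHom ℂ)).mahlerMeasure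

section

variable {K : Type} [Field K] [NumberField K]

variable (K) in
/-- the number `p` is not contained in the square of a prime ideal of the number field `K`; for
a prime number `p` this means that `p` is unramified in `K` -/
def Unramified (p : ℕ) : Prop :=
  ∀ 𝔓 : Ideal (𝓞 K), 𝔓.IsPrime → (p : 𝓞 K) ∈ 𝔓 → (p : 𝓞 K) ∉ 𝔓 ^ 2

/-- the subfield `E` is normal over `ℚ` -/
def IsNormal (E : IntermediateField ℚ K) : Prop := Normal ℚ E

/-- the automorphisms of a subfield `E` which are congruent to the map `x ↦ x ^ (p ^ a)` modulo some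
prime ideal of `E` above `p`; if `p` is unramified they are the `a`-th powers of the Frobenius
automorphisms above `p` -/
def frobenii (E : IntermediateField ℚ K) (p a : ℕ) : Set (E ≃ₐ[ℚ] E) :=
  {σ | ∃ 𝔓 : Ideal (𝓞 E), 𝔓.IsPrime ∧ (p : 𝓞 E) ∈ 𝔓 ∧ ∀ x : 𝓞 E, σ • x - x ^ (p ^ a) ∈ 𝔓}

/-- the number of these automorphisms -/
noncomputable def k (E : IntermediateField ℚ K) (p a : ℕ) : ℕ := (frobenii E p a).ncard

/-- the field generated by `E` and the `p`-th powers of the roots of unity of `K` (if `p` is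
unramified, these are the roots of unity of order prime to `p`, except for signs) -/
def withRoots (E : IntermediateField ℚ K) (p : ℕ) : IntermediateField ℚ K :=
  E ⊔ IntermediateField.adjoin ℚ {x | ∃ ζ : K, (∃ m : ℕ, 0 < m ∧ ζ ^ m = 1) ∧ x = ζ ^ p}

/-- all zeros of `g` in `K` have degree at most `D` over `withRoots E p` -/
def DegreeLE (g : ℤ[X]) (E : IntermediateField ℚ K) (p D : ℕ) : Prop :=
  ∀ α : K, aeval α g = 0 → (minpoly (withRoots E p) α).natDegree ≤ D

end

/-- the number `p ^ (a + 2) D ^ 3 k exp (17 √(log (2 k) log (2 D)))` -/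
noncomputable def weight (p a D k : ℕ) : ℝ :=
  (p : ℝ) ^ (a + 2) * ((D : ℝ) ^ 3 * k * Real.exp (17 * Real.sqrt (Real.log (2 * k) * Real.log (2 * D))))

/-- for some `p`, `a`, `K`, `E`, `D` the zeros of `g` have degree at most `D` over `withRoots E p`, and
the weight is at most `B` -/
def Small (B : ℝ) (g : ℤ[X]) : Prop :=
  ∃ (p a D : ℕ) (K : Type) (_ : Field K) (_ : NumberField K), p.Prime ∧ 1 ≤ a ∧ IsGalois ℚ K ∧
    Unramified K p ∧ (∃ α : K, aeval α g = 0) ∧
    ∃ E : IntermediateField ℚ K, IsNormal E ∧ DegreeLE g E p D ∧ weight p a D (k E p a) ≤ B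

/-- all irreducible factors `g` of `f` with `M g > 1` satisfy the condition with `B = ψ (deg g)` -/
def Few (ψ : ℕ → ℝ) (f : ℤ[X]) : Prop :=
  ∀ g : ℤ[X], Irreducible g → g ∣ f → 1 < M g → Small (ψ g.natDegree) g

/-- the leading coefficient and the constant coefficient are `1` or `-1` -/
def UnitCoeffs (f : ℤ[X]) : Prop := |f.leadingCoeff| = 1 ∧ |f.coeff 0| = 1

/-- the set of the Mahler measures of the polynomials in the class -/
def S (ψ : ℕ → ℝ) : Set ℝ := {x | ∃ f : ℤ[X], f ≠ 0 ∧ Few ψ f ∧ M f = x}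

/-- the same for the polynomials with leading and constant coefficients `± 1` -/
def U (ψ : ℕ → ℝ) : Set ℝ := {x | ∃ f : ℤ[X], f ≠ 0 ∧ (UnitCoeffs f ∧ Few ψ f) ∧ M f = x}

lemma unit_of_dvd {f g : ℤ[X]} (h : UnitCoeffs f) (hg : g ∣ f) : UnitCoeffs g := by
  obtain ⟨q, rfl⟩ := hg
  obtain ⟨h1, h2⟩ := h
  rw [leadingCoeff_mul, abs_mul] at h1
  rw [mul_coeff_zero, abs_mul] at h2
  exact ⟨Int.eq_one_or_neg_one_of_mul_eq_one h1 |>.resolve_right (by
      have := abs_nonneg g.leadingCoeff; omega),
    Int.eq_one_or_neg_one_of_mul_eq_one h2 |>.resolve_right (by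
      have := abs_nonneg (g.coeff 0); omega)⟩

lemma few_of_dvd {ψ : ℕ → ℝ} {f g : ℤ[X]} (h : Few ψ f) (hg : g ∣ f) : Few ψ g :=
  fun q hq hqg => h q hq (hqg.trans hg)

/-- the measures of the irreducible polynomials in the class with leading and constant coefficients
`± 1` -/
lemma irr_finite {ψ : ℕ → ℝ} (hψ : Tendsto (fun n : ℕ => ψ n / n) atTop (𝓝 0)) (T : ℝ) :
    {x : ℝ | x ≤ T ∧ ∃ g : ℤ[X], Irreducible g ∧ (UnitCoeffs g ∧ Few ψ g) ∧ M g = x}.Finite := by
  obtain ⟨A, hA, h⟩ := Pool.Agent.Run7.h22.poly_rel_unit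
  set T' : ℝ := max T 1 with hT'
  have hT1 : 1 ≤ T' := le_max_right _ _
  have hl : 0 ≤ Real.log T' := Real.log_nonneg hT1
  obtain ⟨N, hN⟩ : ∃ N : ℕ, ∀ n : ℕ, N ≤ n → ψ n / n < 1 / (A * (Real.log T' + 1)) := by
    have h1 := hψ.eventually_lt_const (show (0:ℝ) < 1 / (A * (Real.log T' + 1)) by positivity)
    exact eventually_atTop.mp h1
  have hf1 : (M '' {p : ℤ[X] | p.natDegree ≤ N ∧
      (p.map (Int.castRingHom ℂ)).mahlerMeasure ≤ (T'.toNNReal : ℝ)}).Finite :=
    (finite_mahlerMeasure_le N T'.toNNReal).image M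
  apply (hf1.union (Set.finite_singleton (1:ℝ))).subset
  rintro x ⟨hxT, g, hg, ⟨⟨hlc, hcc⟩, hgP⟩, rfl⟩
  have hxT' : M g ≤ T' := hxT.trans (le_max_left _ _)
  have hM1 : 1 ≤ M g := Pool.Agent.H388SL.one_le_MM hg.ne_zero
  rcases hM1.eq_or_lt with h1 | h1
  · right
    exact h1.symm
  left
  refine ⟨g, ⟨?_, ?_⟩, rfl⟩
  · by_contra hdeg
    push Not at hdeg
    have hd : 0 < g.natDegree := by omega
    obtain ⟨p, a, D, K, hKf, hKn, hp, ha, hgal, hunr, ⟨α, hα⟩, E, hE, hD, hw⟩ := hgP g hg dvd_rfl h1
    have hE' : Normal ℚ E := hE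
    have h2 : (g.natDegree : ℝ) ≤ A * (p : ℝ) ^ (a + 2) * ((D : ℝ) ^ 3 * k E p a *
        Real.exp (17 * Real.sqrt (Real.log (2 * k E p a) * Real.log (2 * D)))) * Real.log (M g) :=
      h p a hp ha K hunr g hg h1 hlc hcc α hα E D (hD α hα)
    have h3 := hN g.natDegree hdeg.le
    have hn : (0:ℝ) < g.natDegree := by exact_mod_cast hd
    rw [div_lt_iff₀ hn, one_div_mul_eq_div, lt_div_iff₀ (by positivity)] at h3
    have h4 : (g.natDegree : ℝ) ≤ A * weight p a D (k E p a) * Real.log (M g) := by
      unfold weight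
      linarith
    have h5 : Real.log (M g) ≤ Real.log T' := Real.log_le_log (by linarith) hxT'
    have h6 : 0 ≤ Real.log (M g) := Real.log_nonneg hM1
    have hw0 : 0 ≤ weight p a D (k E p a) := by unfold weight; positivity
    have h7 : A * weight p a D (k E p a) * Real.log (M g) ≤ A * ψ g.natDegree * (Real.log T' + 1) := by
      apply mul_le_mul _ (by linarith) h6
      · exact mul_nonneg hA.le (hw0.trans hw)
      · exact mul_le_mul_of_nonneg_left hw hA.le
    have h8 : A * ψ g.natDegree * (Real.log T' + 1) = ψ g.natDegree * (A * (Real.log T' + 1)) := by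
      ring
    linarith
  · rw [Real.coe_toNNReal _ (by linarith)]
    exact hxT'

/-- an irreducible polynomial with a measure between one and two has leading and constant coefficients
`± 1` -/
lemma unit_of_lt_two {g : ℤ[X]} (hg : Irreducible g) (h1 : 1 < M g) (h2 : M g < 2) : UnitCoeffs g := by
  have hg0 : g ≠ 0 := hg.ne_zero
  constructor
  · have h3 : 1 ≤ |g.leadingCoeff| := Int.one_le_abs (leadingCoeff_ne_zero.mpr hg0)
    have h4 := Pool.Agent.H388SL.leadingCoeff_le_MM g
    have h5 : (|g.leadingCoeff| : ℝ) < 2 := lt_of_le_of_lt h4 h2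
    have h6 : |g.leadingCoeff| < 2 := by exact_mod_cast h5
    omega
  · have h3 : g.coeff 0 ≠ 0 := by
      intro h3
      have h4 : X ∣ g := X_dvd_iff.mpr h3
      obtain ⟨u, hu⟩ : Associated X g := (irreducible_X).associated_of_dvd hg h4
      have h7 : M (X : ℤ[X]) = 1 := by
        have h8 := mahlerMeasure_X_sub_C (0 : ℂ)
        rw [C_0, sub_zero, norm_zero, max_eq_left zero_le_one] at h8
        rw [M, Polynomial.map_X, h8]
      have h9 : M g = 1 := by
        obtain ⟨r, hr, hru⟩ := Polynomial.isUnit_iff.mp u.isUnit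
        rw [← hu, ← hru]
        rcases Int.isUnit_iff.mp hr with h8 | h8
        · rw [h8, C_1, mul_one]
          exact h7
        · have h10 : (X : ℤ[X]) * C (-1) = - X := by
            rw [C_neg, C_1, mul_neg, mul_one]
          rw [h8, h10]
          exact (Pool.Agent.H388SL.MM_neg X).trans h7
      linarith
    have h4 : 1 ≤ |g.coeff 0| := Int.one_le_abs h3
    have h5 := Pool.Agent.H388SL.coeff_zero_le_MM g
    have h6 : (|g.coeff 0| : ℝ) < 2 := lt_of_le_of_lt h5 h2
    have h7 : |g.coeff 0| < 2 := by exact_mod_cast h6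
    omega

/-- **The Mahler measures of the polynomials of small degree over fields with few Frobenius
automorphisms.** Let `ψ n = o(n)`.
1. The set `U ψ` has only finitely many elements below any bound; it is closed in `ℝ`.
2. For every `T < 2` the set `S ψ` has only finitely many elements below `T`; so every limit less than
   `2` of elements of `S ψ` is an element of `S ψ`. -/
theorem result (ψ : ℕ → ℝ) (hψ : Tendsto (fun n : ℕ => ψ n / n) atTop (𝓝 0)) :
    ((∀ T : ℝ, {x : ℝ | x ≤ T ∧ x ∈ U ψ}.Finite) ∧ IsClosed (U ψ)) ∧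
    (∀ T : ℝ, T < 2 → {x : ℝ | x ≤ T ∧ x ∈ S ψ}.Finite) ∧
    ∀ x ∈ closure (S ψ), x < 2 → x ∈ S ψ := by
  have hU : ∀ T : ℝ, {x : ℝ | x ≤ T ∧ x ∈ U ψ}.Finite := by
    intro T
    exact Pool.Agent.Run7.h22.finite_of_irreducible (P := fun f => UnitCoeffs f ∧ Few ψ f)
      (fun f g hf hgf => ⟨unit_of_dvd hf.1 hgf, few_of_dvd hf.2 hgf⟩) T (irr_finite hψ T)
  have hS : ∀ T : ℝ, T < 2 → {x : ℝ | x ≤ T ∧ x ∈ S ψ}.Finite := by
    intro T hT
    apply Pool.Agent.Run7.h22.finite_of_irreducible (P := Few ψ) (fun f g hf hgf => few_of_dvd hf hgf)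
    apply ((irr_finite hψ T).union (Set.finite_singleton (1:ℝ))).subset
    rintro x ⟨hxT, g, hg, hgP, rfl⟩
    have hM1 : 1 ≤ M g := Pool.Agent.H388SL.one_le_MM hg.ne_zero
    rcases hM1.eq_or_lt with h1 | h1
    · right
      exact h1.symm
    · left
      exact ⟨hxT, g, hg, ⟨unit_of_lt_two hg h1 (lt_of_le_of_lt hxT hT), hgP⟩, rfl⟩
  refine ⟨⟨hU, Pool.Agent.Run7.h22.isClosed_of_finite_below hU⟩, hS, ?_⟩
  intro x hx hx2
  set T : ℝ := (x + 2) / 2 with hT
  have hT2 : T < 2 := by rw [hT]; linarith
  have hxT : x < T := by rw [hT]; linarith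
  have h1 : x ∈ closure (S ψ ∩ Set.Iio T) :=
    (mem_closure_iff_nhds.mpr fun t ht => by
      obtain ⟨y, hy⟩ := mem_closure_iff_nhds.mp hx (t ∩ Set.Iio T)
        (Filter.inter_mem ht (Iio_mem_nhds hxT))
      exact ⟨y, hy.1.1, hy.2, hy.1.2⟩)
  have h2 : IsClosed {y : ℝ | y ≤ T ∧ y ∈ S ψ} := (hS T hT2).isClosed
  have h3 : S ψ ∩ Set.Iio T ⊆ {y : ℝ | y ≤ T ∧ y ∈ S ψ} := fun y hy => ⟨le_of_lt hy.2, hy.1⟩
  exact ((closure_mono h3).trans h2.closure_subset h1).2

end Pool.Agent.Results.MP_6d22ea_nt.FewFrobeniusMeasures
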