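import Mathlib
import Pool.Agent.Run7.h260.SX.Fam

/-!
# Boyd's conjecture for families of integer matrices with few large singular values

Let `A(z) = z ^ (-d) P(z)` be a matrix, of any size `n`, of Laurent polynomials with integer
coefficients in any number `k` of variables `z = (z_1, …, z_k)`. Let `F = det (z_0 z ^ d - P(z))`, up
to a monomial the characteristic polynomial of `A(z)`, let `G_i` be the `i`-th diagonal minor of the
same matrix and let `b / a` be the fraction `G_i / F` in lowest terms, that is, up to a monomial, the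
diagonal entry of the resolvent `(z_0 - A(z))⁻¹`. If the common divisors of `F` and `G_i` have
measure `1` (for instance if `F` is irreducible) then `M(a) = M(F)`.

For a complex matrix `X` let `excess X` be the product of the singular values of `X` that are larger
than one. We suppose that, for this one `i`, the mean over the torus of `log (1 + r(z))` is at most
`κ(M(a))`, where `κ` is a monotone function, given once and for all, and where `r(z)` is a bound for
`excess A(z)`; or more generally, there are invertible matrices `S(z)`, which may depend on `z` in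
any way, such that `excess (S(z)⁻¹ A(z) S(z)) ≤ 1 + r(z)` and the product of the norms of the `i`-th
row of `S(z)` and the `i`-th column of `S(z)⁻¹` is at most `r(z)`. There is no condition on the
eigenvalues of `A(z)`, on diagonalisability or on the Jordan structure.

The set of all the measures `M(a)`, for all sizes, numbers of variables, matrices and `i`, has
bounded companions: for every `B` the measures below `B` are measures of polynomials having a coprime
companion of bounded height. Hence the closure of the monoid generated by these measures and by any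
other class with bounded companions consists of Mahler measures of integer polynomials in several
variables, it has a gap above `1`, and below every bound it has finite Cantor-Bendixson rank.
-/

set_option autoImplicit false

namespace Pool.Agent.Results.MP_6d22ea_nt.SingularExcessFamilies

open MeasureTheory

noncomputable section

/-- Value of an integer polynomial in `k` variables at the torus point
`(exp (2 π i t_1), …, exp (2 π i t_k))`. -/
def value {k : ℕ} (F : MvPolynomial (Fin k) ℤ) (t : Fin k → ℝ) : ℂ :=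
  MvPolynomial.eval
    (fun j : Fin k => Complex.exp (2 * (Real.pi : ℂ) * Complex.I * ((t j : ℝ) : ℂ)))
    (MvPolynomial.map (Int.castRingHom ℂ) F)

/-- The Mahler measure of an integer polynomial in `k` variables. -/
def mahler {k : ℕ} (F : MvPolynomial (Fin k) ℤ) : ℝ :=
  Real.exp (∫ t in Set.Icc (0 : Fin k → ℝ) 1, Real.log ‖value F t‖)

/-- The integral of `log max(|F|, |G|)` over the torus. -/
def pairHeight {k : ℕ} (F G : MvPolynomial (Fin k) ℤ) : ℝ :=
  ∫ t in Set.Icc (0 : Fin k → ℝ) 1, Real.log (max ‖value F t‖ ‖value G t‖)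

/-- The set of the Mahler measures of the nonzero integer polynomials in any number of variables. -/
def allMeasures : Set ℝ :=
  {x : ℝ | ∃ k : ℕ, 1 ≤ k ∧ ∃ F : MvPolynomial (Fin k) ℤ, F ≠ 0 ∧ x = mahler F}

/-- The Mahler measures of the nonzero polynomials `F` having a coprime companion `G ≠ 0` with
`∫ log max(|F|, |G|) ≤ K`. -/
def L (K : ℝ) : Set ℝ :=
  {x : ℝ | ∃ k : ℕ, 1 ≤ k ∧ ∃ F G : MvPolynomial (Fin k) ℤ, F ≠ 0 ∧ G ≠ 0 ∧ IsRelPrime F G ∧
    pairHeight F G ≤ K ∧ x = mahler F}

/-- For every `B` some `L K` contains all elements of `T` below `B`. -/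
def BoundedCompanions (T : Set ℝ) : Prop := ∀ B : ℝ, ∃ K : ℝ, T ∩ Set.Iio B ⊆ L K

/-- The matrix of Laurent polynomials `z ^ (-d) P(z)` at a point of the torus. -/
def laurent {k n : ℕ} (P : Matrix (Fin n) (Fin n) (MvPolynomial (Fin k) ℤ)) (d : Fin k →₀ ℕ)
    (t : Fin k → ℝ) : Matrix (Fin n) (Fin n) ℂ :=
  Matrix.of fun i j => (value (MvPolynomial.monomial d 1) t)⁻¹ * value (P i j) t

/-- The matrix `z_0 z ^ d - P(z)` of polynomials in `z_0, z_1, …, z_k`. -/
def pencil {k n : ℕ} (P : Matrix (Fin n) (Fin n) (MvPolynomial (Fin k) ℤ)) (d : Fin k →₀ ℕ) :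
    Matrix (Fin n) (Fin n) (MvPolynomial (Fin (k + 1)) ℤ) :=
  Matrix.of fun i j => (if i = j then MvPolynomial.X 0 *
    MvPolynomial.rename Fin.succ (MvPolynomial.monomial d 1) else 0) -
    MvPolynomial.rename Fin.succ (P i j)

/-- The product of the singular values larger than one of a complex matrix `X`, that is the product
of `max 1 √h` over the eigenvalues `h` of `X* X` with multiplicity. -/
def excess {n : ℕ} (X : Matrix (Fin n) (Fin n) ℂ) : ℝ :=
  (((X.conjTranspose * X).charpoly.roots.map fun h : ℂ => max 1 √‖h‖)).prod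

/-- There is a matrix `S` with inverse `T` such that the product of the singular values larger than
one of `T A S` is at most `1 + r`, and the norms of the `i`-th row of `S` and of the `i`-th column
of `T` have product at most `r`. -/
def Bounded {n : ℕ} (i : Fin n) (r : ℝ) (A : Matrix (Fin n) (Fin n) ℂ) : Prop :=
  ∃ S T : Matrix (Fin n) (Fin n) ℂ, S * T = 1 ∧ excess (T * A * S) ≤ 1 + r ∧
    √(∑ j, ‖S i j‖ ^ 2) * √(∑ j, ‖T j i‖ ^ 2) ≤ r

/-- For almost all points `t` of the torus the matrix `A t` satisfies `Bounded` with the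
constant `r t ≥ 0`, and the mean of `log (1 + r t)` over the torus is at most `K`. -/
def MeanLog {k n : ℕ} (K : ℝ) (i : Fin n) (A : (Fin k → ℝ) → Matrix (Fin n) (Fin n) ℂ) : Prop :=
  ∃ r : (Fin k → ℝ) → ℝ, (∀ t, 0 ≤ r t) ∧
    IntegrableOn (fun t => Real.log (1 + r t)) (Set.Icc (0 : Fin k → ℝ) 1) ∧
    ∫ t in Set.Icc (0 : Fin k → ℝ) 1, Real.log (1 + r t) ≤ K ∧
    ∀ᵐ t ∂(volume.restrict (Set.Icc (0 : Fin k → ℝ) 1)), Bounded i (r t) (A t)

/-- The Mahler measures of the denominators `a` of the reduced fractions `b / a` of the quotients of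
the `i`-th minor and the determinant of the pencil, if the mean log of the constant in the condition
`Bounded` is at most `κ (M(a))`. -/
def measures (κ : ℝ → ℝ) : Set ℝ :=
  {x : ℝ | ∃ (k n : ℕ) (P : Matrix (Fin n) (Fin n) (MvPolynomial (Fin k) ℤ)) (d : Fin k →₀ ℕ)
    (i : Fin n) (D a b : MvPolynomial (Fin (k + 1)) ℤ), (pencil P d).det = D * a ∧
    (pencil P d).adjugate i i = D * b ∧ b ≠ 0 ∧ IsRelPrime a b ∧
    MeanLog (κ (mahler a)) i (laurent P d) ∧ x = mahler a}

/-! ### Bridges -/

theorem excess_sq {n : ℕ} (X : Matrix (Fin n) (Fin n) ℂ) :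
    excess X ^ 2 = (X.conjTranspose * X).charpoly.mahlerMeasure := by
  rw [Polynomial.mahlerMeasure_eq_leadingCoeff_mul_prod_roots,
    (Matrix.charpoly_monic _).leadingCoeff, norm_one, one_mul]
  unfold excess
  rw [← Multiset.prod_map_pow]
  congr 1
  refine Multiset.map_congr rfl fun h _ => ?_
  rcases le_total 1 ‖h‖ with h1 | h1
  · have h2 : 1 ≤ √‖h‖ := Real.one_le_sqrt.mpr h1
    rw [max_eq_right h1, max_eq_right h2, Real.sq_sqrt (norm_nonneg _)]
  · have h2 : √‖h‖ ≤ 1 := Real.sqrt_le_one.mpr h1
    rw [max_eq_left h1, max_eq_left h2, one_pow]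

theorem excess_nonneg {n : ℕ} (X : Matrix (Fin n) (Fin n) ℂ) : 0 ≤ excess X := by
  unfold excess
  refine Multiset.prod_nonneg fun x hx => ?_
  obtain ⟨y, -, rfl⟩ := Multiset.mem_map.mp hx
  exact le_trans zero_le_one (le_max_left _ _)

theorem pencil_eq {k n : ℕ} (P : Matrix (Fin n) (Fin n) (MvPolynomial (Fin k) ℤ))
    (d : Fin k →₀ ℕ) : pencil P d = Pool.Agent.W110.PF.pm Polynomial.X 0 P d := by
  unfold pencil Pool.Agent.W110.PF.pm
  ext1 i j
  simp only [Matrix.of_apply, Polynomial.aeval_X, pow_zero, one_mul]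

theorem measures_eq (κ : ℝ → ℝ) : measures κ =
    Pool.Agent.W110.PF.RD Polynomial.X 0 κ (fun _ i r A => Bounded i r A) := by
  unfold measures Pool.Agent.W110.PF.RD
  ext x
  simp only [Set.mem_setOf_eq, pencil_eq]
  rfl

theorem result (κ : ℝ → ℝ) (hκ : Monotone κ) :
    BoundedCompanions (measures κ) ∧
    (∀ T : Set ℝ, BoundedCompanions T → ∃ M : Submonoid ℝ,
      M = Submonoid.closure (T ∪ measures κ) ∧
      BoundedCompanions (M : Set ℝ) ∧ closure (M : Set ℝ) ⊆ allMeasures ∧
      (∃ δ : ℝ, 1 < δ ∧ ∀ x ∈ M, x = 1 ∨ δ ≤ x) ∧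
      ∀ B : ℝ, ∃ s : ℕ, ∀ x ∈ derivedSet^[s] (M : Set ℝ), B ≤ x) ∧
    ∀ (k n : ℕ) (P : Matrix (Fin n) (Fin n) (MvPolynomial (Fin k) ℤ)) (d : Fin k →₀ ℕ)
      (i : Fin n),
      (Irreducible (pencil P d).det ∨
        (∀ D, D ∣ (pencil P d).det → D ∣ (pencil P d).adjugate i i → mahler D = 1)) →
        MeanLog (κ (mahler (pencil P d).det)) i (laurent P d) →
        mahler (pencil P d).det ∈ measures κ := by
  have hgX : ∀ c : ℤ, (Polynomial.X : Polynomial ℤ) ≠ Polynomial.C c * Polynomial.X ^ 0 := by
    intro c h1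
    rw [pow_zero, mul_one] at h1
    have h2 := congrArg Polynomial.natDegree h1
    rw [Polynomial.natDegree_X, Polynomial.natDegree_C] at h2
    omega
  have b2 : Pool.Agent.TH845.KN.BC (measures κ) := by
    rw [measures_eq]
    refine Pool.Agent.W110.PF.RD_BC Polynomial.X 0 hgX κ hκ _ (4 * Real.log 2) ?_
    rintro n i r A hr ⟨S, T, h1, h2, h3⟩
    refine Pool.Agent.Run7.h260.SX.PB_excess A S T h1 i r hr ?_ ?_
    · unfold Pool.Agent.Run7.h260.SX.cnd
      rw [Real.sqrt_mul (Finset.sum_nonneg fun _ _ => by positivity)]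
      exact h3
    · rw [← excess_sq]
      exact pow_le_pow_left₀ (excess_nonneg _) h2 2
  refine ⟨b2, ?_, ?_⟩
  · intro T hT
    have h1 : Pool.Agent.TH845.KN.BC
        ((Submonoid.closure (T ∪ measures κ) : Submonoid ℝ) : Set ℝ) :=
      Pool.Agent.TH845.KN.BC_monoid (Pool.Agent.TH845.KN.BC.union hT b2)
    obtain ⟨h2, h3⟩ := Pool.Agent.W242.IM.closure_of_LL _ h1
    exact ⟨_, rfl, h1, h2, Pool.Agent.TH845.KN.gap_BC h1, h3⟩
  · intro k n P d i hc hM
    rw [measures_eq]
    rw [pencil_eq] at hc hM ⊢
    refine Pool.Agent.W110.PF.RD_mem Polynomial.X 0 hgX κ _ P d i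
      (Pool.Agent.W110.PF.adj_ne Polynomial.X 0 hgX P d i) ?_ hM
    rcases hc with h1 | h1
    · exact Pool.Agent.W110.PF.irr_gcd Polynomial.X 0 (by simp) P d i h1
    · exact h1

end

end Pool.Agent.Results.MP_6d22ea_nt.SingularExcessFamilies
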